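import Pool.Agent.H5.OR.Targets3

/-!
Row KT of the board ors_modules: the commutator subgroup of `KP k p q` (helper53).
-/

set_option autoImplicit false

open scoped Classical

namespace Pool.Agent.H53.ORS

open ORg

theorem pf_KT (KH : T_KH) : T_KT := by
  intro k p q
  obtain ⟨hrel, hhom, -⟩ := KH k p q
  have hker : ∀ g : KP k p q, g ∈ commutator (KP k p q) ↔ Abelianization.of g = 1 := by
    intro g
    rw [← Abelianization.ker_of, MonoidHom.mem_ker]
  have hkill : ∀ (H : Type) [CommGroup H] (f : KP k p q →* H) (g : KP k p q),
      g ∈ commutator (KP k p q) → f g = 1 := by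
    intro H _ f g hg
    have h := Abelianization.commutator_subset_ker f hg
    rwa [MonoidHom.mem_ker] at h
  refine ⟨?_, ?_⟩
  · intro g
    have hall : ∀ g : KP k p q, ∃ i j : ℤ, Abelianization.of g =
        Abelianization.of (kg true : KP k p q) ^ i *
          Abelianization.of (kg false : KP k p q) ^ j := by
      intro g
      have hg : g ∈ Subgroup.closure (Set.range
          (PresentedGroup.of : Bool ⊕ Empty → PresentedGroup ({relK k p q} : Set _))) := by
        rw [PresentedGroup.closure_range_of]
        exact Subgroup.mem_top g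
      induction hg using Subgroup.closure_induction with
      | mem x hx =>
        obtain ⟨z, rfl⟩ := hx
        rcases z with z | z
        · cases z
          · refine ⟨0, 1, ?_⟩
            rw [zpow_zero, one_mul, zpow_one]
            rfl
          · refine ⟨1, 0, ?_⟩
            rw [zpow_zero, mul_one, zpow_one]
            rfl
        · exact z.elim
      | one => exact ⟨0, 0, by rw [map_one, zpow_zero, zpow_zero, one_mul]⟩
      | mul x y _ _ hx hy =>
        obtain ⟨i, j, h1⟩ := hx
        obtain ⟨i', j', h2⟩ := hy
        refine ⟨i + i', j + j', ?_⟩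
        rw [map_mul, h1, h2, zpow_add, zpow_add]
        exact mul_mul_mul_comm _ _ _ _
      | inv x _ hx =>
        obtain ⟨i, j, h1⟩ := hx
        refine ⟨-i, -j, ?_⟩
        rw [map_inv, h1, zpow_neg, zpow_neg, mul_inv]
    obtain ⟨i, j, h⟩ := hall g
    refine ⟨i, j, ?_⟩
    rw [hker, map_mul, map_inv, map_mul, map_zpow, map_zpow, h, mul_inv_cancel]
  · intro i j
    constructor
    · intro hmem
      refine ⟨?_, ?_⟩
      · obtain ⟨f, f1, f2⟩ := hhom (Multiplicative ℤ) (Multiplicative.ofAdd 1) 1
          (by rw [one_zpow, one_zpow, mul_one, mul_inv_cancel])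
        have h := hkill _ f _ hmem
        rw [map_mul, map_zpow, map_zpow, f1, f2, one_zpow, mul_one, ← ofAdd_zsmul,
          ofAdd_eq_one] at h
        simpa using h
      · obtain ⟨f, f1, f2⟩ := hhom (Multiplicative (ZMod (p - q).natAbs)) 1
          (Multiplicative.ofAdd 1) (by
            rw [one_pow, one_mul, inv_one, mul_one, ← ofAdd_zsmul, ← ofAdd_zsmul]
            congr 1
            rw [zsmul_one, zsmul_one]
            have h : ((p - q : ℤ) : ZMod (p - q).natAbs) = 0 := by
              rw [ZMod.intCast_zmod_eq_zero_iff_dvd]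
              exact Int.natAbs_dvd.2 dvd_rfl
            rw [Int.cast_sub, sub_eq_zero] at h
            exact h)
        have h := hkill _ f _ hmem
        rw [map_mul, map_zpow, map_zpow, f1, f2, one_zpow, one_mul, ← ofAdd_zsmul,
          ofAdd_eq_one, zsmul_one, ZMod.intCast_zmod_eq_zero_iff_dvd] at h
        exact Int.natAbs_dvd.1 h
    · rintro ⟨rfl, m, rfl⟩
      rw [hker, zpow_zero, one_mul, zpow_mul, map_zpow]
      have h1 : Abelianization.of ((kg false : KP k p q) ^ (p - q)) = 1 := by
        have h2 := congrArg Abelianization.of hrel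
        rw [map_mul, map_mul, map_inv, map_zpow, map_zpow, mul_comm, ← mul_assoc,
          inv_mul_cancel, one_mul] at h2
        rw [map_zpow, zpow_sub, h2, mul_inv_cancel]
      rw [h1, one_zpow]

end Pool.Agent.H53.ORS
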