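import Pool.Agent.H5.OR.Targets3

/-!
Row SM of the board ors_modules: the tree of a star of groups (helper53).
-/

set_option autoImplicit false

open scoped Classical

namespace Pool.Agent.H53.ORS

open ORg

theorem pf_SM (SG : T_SG) (SI : T_SI) (SF : T_SF) (SV : T_SV) : T_SM := by
  intro I H B A G _ _ _ _ f g a b hSt hf hg
  obtain ⟨ha, hb⟩ := SI I H B A G f g a b hSt hf hg
  have hgen := SG I H B A G f g a b hSt
  choose τ h1 h2 h3 h4 using SF I H B A G f g a b hSt
  have hCA : ∀ i, (a.comp (f i)).range ≤ a.range := by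
    rintro i _ ⟨h, rfl⟩
    exact ⟨f i h, rfl⟩
  have hCB : ∀ i, (a.comp (f i)).range ≤ (b i).range := by
    rintro i _ ⟨h, rfl⟩
    exact ⟨g i h, (hSt.comm i h).symm⟩
  obtain ⟨hinf, S, r, v, hS⟩ := SV G I a.range (fun i => (b i).range)
    (fun i => (a.comp (f i)).range) τ hgen hCA hCB h1
    (by
      rintro i x _ ⟨y, rfl⟩
      exact h2 i x y)
    (by
      rintro i j x hji _ ⟨y, rfl⟩
      exact h3 i j x y hji)
    (by
      rintro i x _ ⟨y, rfl⟩
      exact h4 i x y)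
  refine ⟨ha, hb, ?_, S, r, v, hS⟩
  intro i x y hxy
  have hx : a x ∈ (a.comp (f i)).range := by
    rw [← hinf i]
    exact ⟨⟨x, rfl⟩, y, hxy.symm⟩
  obtain ⟨h, hh⟩ := hx
  have hh' : a (f i h) = a x := hh
  refine ⟨h, ha hh'.symm, hb i ?_⟩
  rw [← hSt.comm i h, hh', hxy]

end Pool.Agent.H53.ORS
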